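import Pool.Agent.Z894.CP.Stm3

/-!
# ND-3: existence of norm forms
-/

set_option autoImplicit false

open MvPolynomial

namespace Pool.Agent.Y547.ND

open Pool.Agent.TH922.KC Pool.Agent.Z894.ND

section scale

variable {σ κ : Type} [Fintype σ] [Field κ]

/-- scaling of the variables -/
noncomputable def sc (c : σ → κ) : MvPolynomial σ κ →ₐ[κ] MvPolynomial σ κ :=
  bind₁ (fun s => C (c s) * X s)

lemma sc_monomial (c : σ → κ) (u : σ →₀ ℕ) (a : κ) :
    sc c (monomial u a) = monomial u ((∏ s, c s ^ u s) * a) := by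
  unfold sc
  have h0 : ∏ i ∈ u.support, (C (c i) * X i : MvPolynomial σ κ) ^ u i =
      ∏ i, (C (c i) * X i : MvPolynomial σ κ) ^ u i :=
    Finset.prod_subset (Finset.subset_univ _) (fun i _ hi => by
      rw [Finsupp.notMem_support_iff.1 hi, pow_zero])
  rw [bind₁_monomial, h0]
  simp only [mul_pow]
  rw [Finset.prod_mul_distrib]
  have h1 : ∏ s, (C (c s) : MvPolynomial σ κ) ^ u s = C (∏ s, c s ^ u s) := by
    rw [map_prod]
    exact Finset.prod_congr rfl fun s _ => (map_pow _ _ _).symm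
  have h2 : ∏ s, (X s : MvPolynomial σ κ) ^ u s = monomial u 1 := by
    rw [monomial_eq, C_1, one_mul, Finsupp.prod_fintype _ _ (fun i => pow_zero _)]
  rw [h1, h2, ← mul_assoc, ← map_mul, C_mul_monomial, mul_one, mul_comm a]

lemma coeff_sc (c : σ → κ) (m : σ →₀ ℕ) (P : MvPolynomial σ κ) :
    coeff m (sc c P) = (∏ s, c s ^ m s) * coeff m P := by
  classical
  induction P using MvPolynomial.induction_on' with
  | monomial u a =>
    rw [sc_monomial, coeff_monomial, coeff_monomial]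
    split_ifs with h
    · rw [h]
    · rw [mul_zero]
  | add p q hp hq => rw [map_add, coeff_add, coeff_add, hp, hq, mul_add]

lemma sc_sc (c c' : σ → κ) (P : MvPolynomial σ κ) : sc c (sc c' P) = sc (c * c') P := by
  ext m
  rw [coeff_sc, coeff_sc, coeff_sc, ← mul_assoc, ← Finset.prod_mul_distrib]
  congr 1
  exact Finset.prod_congr rfl fun s _ => by rw [Pi.mul_apply, mul_pow]

lemma sc_hom (c : σ → κ) {P : MvPolynomial σ κ} {d : ℕ} (h : P.IsHomogeneous d) :
    (sc c P).IsHomogeneous d := by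
  intro m hm
  rw [coeff_sc] at hm
  exact h (right_ne_zero_of_mul hm)

lemma eval_sc (c : σ → κ) (P : MvPolynomial σ κ) {Ω : Type} [Field Ω] (θ : κ →+* Ω) (y : σ → Ω) :
    eval₂ θ y (sc c P) = eval₂ θ (fun s => θ (c s) * y s) P := by
  have h := eval₂Hom_bind₁ θ y (fun s => (C (c s) * X s : MvPolynomial σ κ)) P
  have h1 : eval₂ θ y (sc c P) = eval₂Hom θ y (bind₁ (fun s => C (c s) * X s) P) := rfl
  rw [h1, h]
  change eval₂ θ (fun i => eval₂ θ y (C (c i) * X i)) P = _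
  congr 1
  funext i
  rw [eval₂_mul, eval₂_C, eval₂_X]

end scale

section norm

variable {V J κ : Type} [Fintype V] [Fintype J] [DecidableEq J] [Field κ]
  (M : J → ℕ) (ζ : J → κ)

/-- the scaling factors -/
def cl (l : J → ℕ) : V ⊕ J → κ := Sum.elim (fun _ => 1) (fun h => ζ h ^ l h)

/-- the norm -/
noncomputable def Nm (G : MvPolynomial (V ⊕ J) κ) : MvPolynomial (V ⊕ J) κ :=
  ∏ l : (∀ h, Fin (M h)), sc (cl ζ fun h => (l h : ℕ)) G

variable {M ζ}

lemma Nm_inv (hM : ∀ h, 0 < M h) (hζ : ∀ h, ζ h ^ M h = 1) (G : MvPolynomial (V ⊕ J) κ)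
    (h0 : J) : sc (cl ζ (Pi.single h0 1)) (Nm M ζ G) = Nm M ζ G := by
  have : ∀ h, NeZero (M h) := fun h => ⟨(hM h).ne'⟩
  unfold Nm
  rw [map_prod]
  refine Fintype.prod_equiv (Equiv.addRight (Pi.single h0 (1 : Fin (M h0)) : ∀ h, Fin (M h)))
    _ _ fun l => ?_
  rw [sc_sc]
  congr 2
  funext s
  rcases s with v | h
  · simp [cl]
  · rw [Pi.mul_apply]
    simp only [cl, Sum.elim_inr, Equiv.coe_addRight, Pi.add_apply]
    have hmod : ∀ k : ℕ, ζ h ^ (k % M h) = ζ h ^ k := by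
      intro k
      conv_rhs => rw [← Nat.mod_add_div k (M h), pow_add, pow_mul, hζ, one_pow, mul_one]
    rw [Fin.val_add, hmod, pow_add, mul_comm]
    congr 1
    by_cases hh : h = h0
    · subst hh
      rw [Pi.single_eq_same, Pi.single_eq_same, Fin.val_one', hmod]
    · rw [Pi.single_eq_of_ne hh, Pi.single_eq_of_ne hh]
      simp

lemma Nm_dvd (hM : ∀ h, 0 < M h) (hζ : ∀ h, IsPrimitiveRoot (ζ h) (M h))
    (G : MvPolynomial (V ⊕ J) κ) (m : V ⊕ J →₀ ℕ) (hm : coeff m (Nm M ζ G) ≠ 0) (h0 : J) :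
    M h0 ∣ m (Sum.inr h0) := by
  have h1 := congrArg (coeff m) (Nm_inv hM (fun h => (hζ h).pow_eq_one) G h0)
  rw [coeff_sc] at h1
  have h2 : ∏ s, (cl ζ (Pi.single h0 1) : V ⊕ J → κ) s ^ m s = ζ h0 ^ m (Sum.inr h0) := by
    rw [Fintype.prod_sum_type, Finset.prod_eq_one (fun v _ => by simp [cl]), one_mul,
      Finset.prod_eq_single h0]
    · simp [cl]
    · intro h _ hh
      simp [cl, Pi.single_eq_of_ne hh]
    · simp
  rw [h2] at h1
  have h3 : ζ h0 ^ m (Sum.inr h0) = 1 := by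
    apply mul_right_cancel₀ hm
    rw [h1, one_mul]
  exact (hζ h0).dvd_of_pow_eq_one _ h3

variable (M ζ)

/-- the norm form -/
noncomputable def En (G : MvPolynomial (V ⊕ J) κ) (U : J → MvPolynomial V κ) : MvPolynomial V κ :=
  ∑ m ∈ (Nm M ζ G).support, C (coeff m (Nm M ζ G)) * ((∏ v, X v ^ m (Sum.inl v)) *
    ∏ h, U h ^ (m (Sum.inr h) / M h))

variable {M ζ}

lemma Nm_hom {G : MvPolynomial (V ⊕ J) κ} {q : ℕ} (hG : G.IsHomogeneous q) :
    (Nm M ζ G).IsHomogeneous ((∏ h, M h) * q) := by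
  unfold Nm
  have h := IsHomogeneous.prod (Finset.univ : Finset (∀ h, Fin (M h)))
    (fun l => sc (cl ζ fun h => (l h : ℕ)) G) (fun _ => q) fun l _ => sc_hom _ hG
  have e : ∑ _l : (∀ h, Fin (M h)), q = (∏ h, M h) * q := by
    rw [Finset.sum_const, Finset.card_univ, Fintype.card_pi, smul_eq_mul]
    simp
  rwa [e] at h

lemma En_hom (hM : ∀ h, 0 < M h) (hζ : ∀ h, IsPrimitiveRoot (ζ h) (M h))
    {G : MvPolynomial (V ⊕ J) κ} {q : ℕ} (hG : G.IsHomogeneous q) {U : J → MvPolynomial V κ}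
    (hU : ∀ h, (U h).IsHomogeneous (M h)) :
    (En M ζ G U).IsHomogeneous ((∏ h, M h) * q) := by
  unfold En
  refine IsHomogeneous.sum _ _ _ fun m hm => ?_
  rw [mem_support_iff] at hm
  have h1 : m.degree = (∏ h, M h) * q := by
    have := Nm_hom (M := M) (ζ := ζ) hG hm
    rw [← this]
    simp [Finsupp.weight_apply, Finsupp.degree_eq_sum, Finsupp.sum_fintype]
  have h2 : (∏ v : V, (X v : MvPolynomial V κ) ^ m (Sum.inl v)).IsHomogeneous
      (∑ v, 1 * m (Sum.inl v)) :=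
    IsHomogeneous.prod _ _ _ fun v _ => (isHomogeneous_X κ v).pow _
  have h3 : (∏ h, U h ^ (m (Sum.inr h) / M h)).IsHomogeneous
      (∑ h, M h * (m (Sum.inr h) / M h)) :=
    IsHomogeneous.prod _ _ _ fun h _ => (hU h).pow _
  have h4 := (isHomogeneous_C V (coeff m (Nm M ζ G))).mul (h2.mul h3)
  have e : 0 + (∑ v, 1 * m (Sum.inl v) + ∑ h, M h * (m (Sum.inr h) / M h)) =
      (∏ h, M h) * q := by
    rw [← h1, Finsupp.degree_eq_sum, Fintype.sum_sum_type, zero_add]
    congr 1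
    · exact Finset.sum_congr rfl fun v _ => one_mul _
    · exact Finset.sum_congr rfl fun h _ => Nat.mul_div_cancel' (Nm_dvd hM hζ G m hm h)
  rwa [e] at h4

lemma En_eval (hM : ∀ h, 0 < M h) (hζ : ∀ h, IsPrimitiveRoot (ζ h) (M h))
    (G : MvPolynomial (V ⊕ J) κ) (U : J → MvPolynomial V κ) {Ω : Type} [Field Ω] (θ : κ →+* Ω)
    (x : V → Ω) (z : J → Ω) (hz : ∀ h, z h ^ M h = eval₂ θ x (U h)) :
    eval₂ θ x (En M ζ G U) = ∏ l : (∀ h, Fin (M h)),
      eval₂ θ (Sum.elim x (fun h => θ (ζ h ^ (l h : ℕ)) * z h)) G := by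
  have h1 : eval₂ θ x (En M ζ G U) = eval₂ θ (Sum.elim x z) (Nm M ζ G) := by
    unfold En
    rw [eval₂_sum, eval₂_eq']
    refine Finset.sum_congr rfl fun m hm => ?_
    rw [mem_support_iff] at hm
    rw [eval₂_mul, eval₂_C, eval₂_mul, eval₂_prod, eval₂_prod, Fintype.prod_sum_type]
    congr 2
    · refine Finset.prod_congr rfl fun v _ => ?_
      rw [eval₂_pow, eval₂_X, Sum.elim_inl]
    · refine Finset.prod_congr rfl fun h _ => ?_
      rw [eval₂_pow, ← hz h, ← pow_mul, Nat.mul_div_cancel' (Nm_dvd hM hζ G m hm h),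
        Sum.elim_inr]
  rw [h1]
  unfold Nm
  rw [eval₂_prod]
  refine Finset.prod_congr rfl fun l _ => ?_
  rw [eval_sc]
  congr 1
  funext s
  rcases s with v | h
  · simp [cl]
  · simp [cl]

end norm

lemma mono_hom {κ V : Type} [Field κ] {ι : Type} [Fintype ι] (f : ι → V) (μ : ι →₀ ℕ) :
    (∏ j, (X (f j) : MvPolynomial V κ) ^ μ j).IsHomogeneous μ.degree := by
  have h2 : (∏ j, (X (f j) : MvPolynomial V κ) ^ μ j).IsHomogeneous (∑ j, 1 * μ j) :=
    IsHomogeneous.prod _ _ _ fun v _ => (isHomogeneous_X κ _).pow _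
  have e : ∑ j, 1 * μ j = μ.degree := by
    rw [Finsupp.degree_eq_sum]
    exact Finset.sum_congr rfl fun v _ => one_mul _
  rwa [e] at h2

theorem norm_holds : Pool.Agent.Z894.ND.NNorm := by
  classical
  intro κ _ _ p _ n r m s H _ _ D hD ω hω cf c' i
  have hp : 0 < p := (Fact.out : p.Prime).pos
  let J := {h : H // D.it h = i.1}
  let V := Fin (n + 1) ⊕ Fin r
  let M : J → ℕ := fun h => p ^ D.t (Sum.inl h.1)
  let ζ : J → κ := fun h => ω ^ (p ^ (s - D.t (Sum.inl h.1)))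
  let q := p ^ D.t (Sum.inr i.1)
  have hM : ∀ h, 0 < M h := fun h => pow_pos hp _
  have hζ : ∀ h, IsPrimitiveRoot (ζ h) (M h) := by
    intro h
    refine hω.pow (pow_pos hp _) ?_
    rw [← pow_add, Nat.sub_add_cancel (hD.tle _)]
  let U : J → MvPolynomial V κ := fun h =>
    D.pv (fun i' => X (Sum.inr i')) (Sum.inl h.1) *
      ∑ μ : It (Fin (n + 1)) (D.e p (Sum.inl h.1)), C (cf ⟨Sum.inl h.1, μ⟩) *
        ∏ j, X (Sum.inl j) ^ (μ.1 j)
  let G : MvPolynomial (V ⊕ J) κ := X (Sum.inl (Sum.inr i.1)) ^ q -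
    (∑ μ : It (Fin (n + 1)) (D.e p (Sum.inr i.1)), C (cf ⟨Sum.inr i.1, μ⟩) *
        ∏ j, X (Sum.inl (Sum.inl j)) ^ (μ.1 j) +
     ∑ μ : It (Fin (n + 1) ⊕ J) q, C (c' ⟨i, μ⟩) *
        ((∏ j, X (Sum.inl (Sum.inl j)) ^ (μ.1 (Sum.inl j))) *
          ∏ h, X (Sum.inr h) ^ (μ.1 (Sum.inr h))))
  have hU : ∀ h, (U h).IsHomogeneous (M h) := by
    intro h
    have h1 : (∑ μ : It (Fin (n + 1)) (D.e p (Sum.inl h.1)), (C (cf ⟨Sum.inl h.1, μ⟩) *
        ∏ j, X (Sum.inl j) ^ (μ.1 j) : MvPolynomial V κ)).IsHomogeneous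
        (D.e p (Sum.inl h.1)) := by
      refine IsHomogeneous.sum _ _ _ fun μ _ => ?_
      have h2 := (isHomogeneous_C V (cf ⟨Sum.inl h.1, μ⟩)).mul
        (mono_hom (κ := κ) (fun j => (Sum.inl j : V)) μ.1)
      rwa [zero_add, μ.2] at h2
    change (D.pv (fun i' => X (Sum.inr i')) (Sum.inl h.1) * _ : MvPolynomial V κ).IsHomogeneous _
    cases hpr : D.prev (Sum.inl h.1) with
    | none =>
      have e1 : D.pv (fun i' => (X (Sum.inr i') : MvPolynomial V κ)) (Sum.inl h.1) = 1 := by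
        unfold Dat.pv
        rw [hpr]
        rfl
      have e2 : D.e p (Sum.inl h.1) = M h := by
        unfold Dat.e
        rw [hpr]
        rfl
      rw [e1, one_mul, ← e2]
      exact h1
    | some i' =>
      have e1 : D.pv (fun i' => (X (Sum.inr i') : MvPolynomial V κ)) (Sum.inl h.1) =
          X (Sum.inr i') := by
        unfold Dat.pv
        rw [hpr]
        rfl
      have e2 : 1 + D.e p (Sum.inl h.1) = M h := by
        unfold Dat.e
        rw [hpr]
        change 1 + (p ^ D.t (Sum.inl h.1) - 1) = p ^ D.t (Sum.inl h.1)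
        have := pow_pos hp (D.t (Sum.inl h.1))
        omega
      rw [e1, ← e2]
      exact (isHomogeneous_X κ _).mul h1
  have hG : G.IsHomogeneous q := by
    refine IsHomogeneous.sub ?_ (IsHomogeneous.add ?_ ?_)
    · have := (isHomogeneous_X κ (Sum.inl (Sum.inr i.1) : V ⊕ J)).pow q
      rwa [one_mul] at this
    · refine IsHomogeneous.sum _ _ _ fun μ _ => ?_
      have h2 := (isHomogeneous_C (V ⊕ J) (cf ⟨Sum.inr i.1, μ⟩)).mul
        (mono_hom (κ := κ) (fun j => (Sum.inl (Sum.inl j) : V ⊕ J)) μ.1)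
      have e2 : D.e p (Sum.inr i.1) = q := by
        obtain ⟨h, hh⟩ := i.2
        have := hD.comp h
        rw [hh] at this
        unfold Dat.e
        rw [this]
        rfl
      have e3 : 0 + μ.1.degree = q := by rw [zero_add, μ.2, e2]
      rw [e3] at h2
      exact h2
    · refine IsHomogeneous.sum _ _ _ fun μ _ => ?_
      have h2 := (isHomogeneous_C (V ⊕ J) (c' ⟨i, μ⟩)).mul
        (mono_hom (κ := κ) (Sum.elim (fun j => (Sum.inl (Sum.inl j) : V ⊕ J)) Sum.inr) μ.1)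
      rw [zero_add, μ.2, Fintype.prod_sum_type] at h2
      exact h2
  refine ⟨En M ζ G U, ?_, ?_⟩
  · have h1 := En_hom hM hζ hG hU
    have e : (∏ h, M h) * q = p ^ D.tot i.1 := by
      unfold Dat.tot
      have e1 : ∏ h, M h = p ^ (∑ h ∈ Finset.univ.filter (fun h => D.it h = i.1),
          D.t (Sum.inl h)) := by
        rw [← Finset.prod_pow_eq_pow_sum]
        exact (Finset.prod_subtype (Finset.univ.filter (fun h => D.it h = i.1))
          (fun h => by simp) (fun h => p ^ D.t (Sum.inl h))).symm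
      rw [e1, pow_add, mul_comm]
    rwa [e] at h1
  · intro Ω _ θ x X' z hz
    have h1 := En_eval hM hζ G U θ (Sum.elim x X') z (by
      intro h
      rw [hz h]
      change _ = eval₂ θ (Sum.elim x X') (D.pv (fun i' => X (Sum.inr i')) (Sum.inl h.1) *
        ∑ μ : It (Fin (n + 1)) (D.e p (Sum.inl h.1)), C (cf ⟨Sum.inl h.1, μ⟩) *
          ∏ j, X (Sum.inl j) ^ (μ.1 j))
      rw [eval₂_mul, eval₂_sum]
      congr 1
      · unfold Dat.pv
        cases D.prev (Sum.inl h.1) with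
        | none => exact (eval₂_one _ _).symm
        | some i' =>
          change X' i' = eval₂ θ (Sum.elim x X') (X (Sum.inr i'))
          rw [eval₂_X, Sum.elim_inr]
      · unfold Dat.fv
        refine Finset.sum_congr rfl fun μ _ => ?_
        rw [eval₂_mul, eval₂_C, eval₂_prod]
        congr 1
        refine Finset.prod_congr rfl fun j _ => ?_
        rw [eval₂_pow, eval₂_X, Sum.elim_inl])
    rw [h1]
    refine Finset.prod_congr rfl fun l _ => ?_
    change eval₂ θ _ (X (Sum.inl (Sum.inr i.1)) ^ q -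
      (∑ μ : It (Fin (n + 1)) (D.e p (Sum.inr i.1)), C (cf ⟨Sum.inr i.1, μ⟩) *
        ∏ j, X (Sum.inl (Sum.inl j)) ^ (μ.1 j) +
     ∑ μ : It (Fin (n + 1) ⊕ J) q, C (c' ⟨i, μ⟩) *
        ((∏ j, X (Sum.inl (Sum.inl j)) ^ (μ.1 (Sum.inl j))) *
          ∏ h, X (Sum.inr h) ^ (μ.1 (Sum.inr h))))) = _
    rw [eval₂_sub, eval₂_pow, eval₂_X, eval₂_add, eval₂_sum, eval₂_sum]
    congr 1
    congr 1
    · unfold Dat.fv
      refine Finset.sum_congr rfl fun μ _ => ?_
      rw [eval₂_mul, eval₂_C, eval₂_prod]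
      congr 1
      refine Finset.prod_congr rfl fun j _ => ?_
      rw [eval₂_pow, eval₂_X, Sum.elim_inl, Sum.elim_inl]
    · unfold Dat.mv
      refine Finset.sum_congr rfl fun μ _ => ?_
      rw [eval₂_mul, eval₂_C, eval₂_mul, eval₂_prod, eval₂_prod]
      congr 1
      congr 1
      · refine Finset.prod_congr rfl fun j _ => ?_
        rw [eval₂_pow, eval₂_X, Sum.elim_inl, Sum.elim_inl]
      · refine Finset.prod_congr rfl fun h _ => ?_
        rw [eval₂_pow, eval₂_X, Sum.elim_inr]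
        congr 2
        rw [mul_comm (l h : ℕ), pow_mul]

end Pool.Agent.Y547.ND
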